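import Mathlib
import Pool.Agent.Lib.MP_528ca9_co.B9

set_option autoImplicit false

namespace Pool.Agent.Results.MP_528ca9_co.NonStrict

open MP528

/-- Q1 is false for compact convex sets which need not be strictly convex: the negated form holds with
`d = 4`. For every `n ≥ 4` the number of topological faces of the space of hyperplane transversals of
a 2-separated family of `n` nonempty compact convex sets in `ℝ^4` is unbounded. -/
theorem result :
    (∀ n : ℕ, 4 ≤ n → ∀ M : ℕ, ∃ A : Fin n → Set (E 4),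
      (∀ i, (A i).Nonempty ∧ IsCompact (A i) ∧ Convex ℝ (A i)) ∧ Separated A ∧
        (M : ℕ∞) ≤ (Faces A).encard) ∧
    ¬ (∀ d : ℕ, 2 ≤ d → ∃ C : ℕ, ∀ n : ℕ, d ≤ n → ∀ A : Fin n → Set (E d),
      (∀ i, (A i).Nonempty ∧ IsCompact (A i) ∧ Convex ℝ (A i)) → Separated A →
        (Faces A).encard ≤ ((C * n ^ ((d + 1) / 2) : ℕ) : ℕ∞)) := by
  refine ⟨fun n hn M => counterexample n M hn, fun h => ?_⟩
  obtain ⟨C, hC⟩ := h 4 (by norm_num)
  obtain ⟨A, hA, hs, hM⟩ := counterexample 4 (C * 4 ^ ((4 + 1) / 2) + 1) le_rfl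
  have h1 := hM.trans (hC 4 le_rfl A hA hs)
  have h2 := Nat.cast_le.mp h1
  omega

end Pool.Agent.Results.MP_528ca9_co.NonStrict
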