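import Mathlib
import Pool.Agent.Lib.MP_528ca9_co.R6

set_option autoImplicit false

namespace Pool.Agent.Results.MP_528ca9_co.StrictlyConvex

open MP528

/-- The conjectured bound holds for strictly convex sets: for every `d ≥ 2` there is a constant `C`
such that for all `n ≥ d` every `(d-2)`-separated family of `n` compact strictly convex sets in `ℝ^d`
has at most `C n^⌈d/2⌉` topological faces of hyperplane transversals. -/
theorem result (d : ℕ) (hd : 2 ≤ d) :
    ∃ C : ℕ, ∀ n : ℕ, d ≤ n → ∀ A : Fin n → Set (E d),
      (∀ i, IsCompact (A i) ∧ SConvex (A i)) → Separated A →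
        (Faces A).encard ≤ ((C * n ^ ((d + 1) / 2) : ℕ) : ℕ∞) :=
  upper_bound d hd

end Pool.Agent.Results.MP_528ca9_co.StrictlyConvex
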